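import Pool.Agent.Helper97.Hilb8.K.B.CertTab
import Pool.Agent.Helper97.Hilb8.K.B.DerTab
import Pool.Agent.Helper97.Hilb8.K.B.ThTab
import Pool.Agent.Helper97.Hilb8.K.B.Tab
import Pool.Agent.Helper97.Hilb8.K.B.RawTab
import Pool.Agent.Helper97.Hilb8.K.B.PtsTab

/-! Checks. -/

set_option linter.all false
set_option maxRecDepth 1000000
set_option maxHeartbeats 0

noncomputable section

namespace Pool.Agent.Helper97.Hilb8.K.B

/-- Generators with `f`. -/
def E2 : Tr := .node E 9999 0 f0k .leaf

/-- Substitution. -/
def JV : V := mkJV VP jv 0

theorem d1 : goodT 141112949986000769314354982394685249377623834251174995898436813316771161238669414401516979093504000 117 DE1 = true := by decide +kernel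

theorem d2 : chkJ 141112949986000769314354982394685249377623834251174995898436813316771161238669414401516979093504000 E DE1 J1 0 = true := by decide +kernel

theorem d3 : goodT 141112949986000769314354982394685249377623834251174995898436813316771161238669414401516979093504000 318 DE2 = true := by decide +kernel

theorem d4 : chkJ 141112949986000769314354982394685249377623834251174995898436813316771161238669414401516979093504000 E2 DE2 J2 0 = true := by decide +kernel

theorem d5 : chkT 141112949986000769314354982394685249377623834251174995898436813316771161238669414401516979093504000 DE2 318 T T2 0 = true := by decide +kernel

theorem a1 : chkA 141112949986000769314354982394685249377623834251174995898436813316771161238669414401516979093504000 VP JV V0 io f0k DE1 117 T1 0 = true := by decide +kernel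

theorem a2 : sP 141112949986000769314354982394685249377623834251174995898436813316771161238669414401516979093504000 VP isZero f0 (addm 0 0 1 f0k .z) = true := by decide +kernel

theorem a3 : goodP 141112949986000769314354982394685249377623834251174995898436813316771161238669414401516979093504000 f0k = true := by decide +kernel

theorem a4 : JV.posOK 25 0 = true := by decide +kernel

theorem a5 : JV.good 141112949986000769314354982394685249377623834251174995898436813316771161238669414401516979093504000 = true := by decide +kernel

end Pool.Agent.Helper97.Hilb8.K.B
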