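import Pool.Agent.Helper97.Hilb8.K.B.ThTab
import Pool.Agent.Helper97.Hilb8.K.B.ComTab

/-! Checks. -/

set_option linter.all false
set_option maxRecDepth 1000000
set_option maxHeartbeats 0

noncomputable section

namespace Pool.Agent.Helper97.Hilb8.K.B

theorem x1 : comb 11120266659479813102275661708530068136306679655413532969550946363339110660129467379291653229725420539987469543450274054065820693933807928063675628026111021399440823822937862747970608904409902374164241114379161960448 0 CT 4096 isZero fcl (addm xk 0 1 f .z) = true := by decide +kernel

end Pool.Agent.Helper97.Hilb8.K.B
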