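import Pool.Agent.Helper97.Hilb8.K.B.PtsTab
import Pool.Agent.Helper97.Hilb8.K.B.Tab
import Pool.Agent.Helper97.Hilb8.K.B.RelTab

/-! Checks. -/

set_option linter.all false
set_option maxRecDepth 1000000
set_option maxHeartbeats 0

noncomputable section

namespace Pool.Agent.Helper97.Hilb8.K.B

theorem pt1 : potOK pA pMO pS (fun c => c) p0 q0 pWO = true := by decide +kernel

theorem pt2 : optOK pA pB pMO pS pS2 (fun c => c) p0 q0 sg0 p02 q02 = true := by decide +kernel

theorem pt3 : potsOK pA pMO pS pWO pT wr 0 = true := by decide +kernel

theorem pt4 : optsOK pA pB pMO pS pS2 pT io = true := by decide +kernel

theorem pt5 : indepOK pMO pG sg0 pT zl 0 = true := by decide +kernel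

theorem pt6 : distinct zl 0 = true := by decide +kernel

theorem pt7 : zOK zl zk io 59 = true := by decide +kernel

theorem pt8 : distinct io 0 = true := by decide +kernel

theorem t1 : posOK 59 ws 0 = true := by decide +kernel

theorem t2 : tabOK 141112949986000769314354982394685249377623834251174995898436813316771161238669414401516979093504000 264586781223751442464415591990034842583044689220953117309569024968945927322505152002844331773788160 255 ws T = true := by decide +kernel

theorem t3 : present T 255 = true := by decide +kernel

theorem t4 : msOK 141112949986000769314354982394685249377623834251174995898436813316771161238669414401516979093504000 264586781223751442464415591990034842583044689220953117309569024968945927322505152002844331773788160 M = true := by decide +kernel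

theorem t5 : relsOK 141112949986000769314354982394685249377623834251174995898436813316771161238669414401516979093504000 327 ws T R = true := by decide +kernel

theorem t6 : elims 59 273406340597876490546562778389702670669146178861651554553221325801244124899921990402939142832914432 264586781223751442464415591990034842583044689220953117309569024968945927322505152002844331773788160 327 32 R Y = true := by decide +kernel

end Pool.Agent.Helper97.Hilb8.K.B
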