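import Pool.Agent.Helper97.Hilb8.K.B.ThTab
import Pool.Agent.Helper97.Hilb8.K.B.RawTab
import Pool.Agent.Helper97.Hilb8.K.B.PtsTab
import Pool.Agent.Helper97.Hilb8.K.B.ComTab

/-! Checks. -/

set_option linter.all false
set_option maxRecDepth 1000000
set_option maxHeartbeats 0

noncomputable section

namespace Pool.Agent.Helper97.Hilb8.K.B

theorem h1 : topF 11120266659479813102275661708530068136306679655413532969550946363339110660129467379291653229725420539987469543450274054065820693933807928063675628026111021399440823822937862747970608904409902374164241114379161960448 712 wr d0 f f0 = true := by decide +kernel

theorem h2 : V.posOK 136 VT 0 = true := by decide +kernel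

theorem h3 : V.posOK 136 V0 0 = true := by decide +kernel

theorem h4 : V.good 94290428214896962464753860175244065784184438784 VT = true := by decide +kernel

theorem h5 : V.good 94290428214896962464753860175244065784184438784 V0 = true := by decide +kernel

theorem h6 : topV wD VT V0 wr = true := by decide +kernel

theorem h7 : posOK 25 wD 0 = true := by decide +kernel

theorem h8 : sP 94290428214896962464753860175244065784184438784 V0 (fun a => sumM 182687704666362864775460604089535377452696600576 maskD a 0 0) f0 .z = true := by decide +kernel

theorem h9 : posOK 136 wr 0 = true := by decide +kernel

theorem h10 : zeroT 94290428214896962464753860175244065784184438784 VT CT = true := by decide +kernel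

end Pool.Agent.Helper97.Hilb8.K.B
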