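import Pool.Agent.Helper97.Hilb8.K.Final
import Pool.Agent.Helper97.Hilb8.K.Inst
import Pool.Agent.Helper97.Hilb8.K.B.RawChk
import Pool.Agent.Helper97.Hilb8.K.B.DerChk
import Pool.Agent.Helper97.Hilb8.K.B.ThChk
import Pool.Agent.Helper97.Hilb8.K.B.ExChk
import Pool.Agent.Helper97.Hilb8.K.B.PtsChk
import Pool.Agent.Helper97.Hilb8.K.B.Chk0
import Pool.Agent.Helper97.Hilb8.K.B.Chk1
import Pool.Agent.Helper97.Hilb8.K.B.Rw0
import Pool.Agent.Helper97.Hilb8.K.B.Rw1

/-! Data and checks of the chart. -/

set_option linter.all false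
set_option maxRecDepth 1000000
set_option maxHeartbeats 0

noncomputable section

namespace Pool.Agent.Helper97.Hilb8.K.B

/-- The data of the chart. -/
def data : Data where
  sh := 712
  G := 11120266659479813102275661708530068136306679655413532969550946363339110660129467379291653229725420539987469543450274054065820693933807928063675628026111021399440823822937862747970608904409902374164241114379161960448
  LOW := 21545516652742137885659094560277007014094191832363720128504958578969526904000843047377578132593002296225722240434905979752527594496752860623371529300590103961416596156942109074193054752294185849943217159105465548800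
  SQ := 20850499986524649566766865703493877755575024353900374317908024431260832487742751336171849805735163512476505393969263851373413801125889865119391802548958165123951544668008492652444891695768566951557952089456902144000
  NX := NX
  VK := VK
  cT := CT
  wr := wr
  cK := C
  io := io
  VP := VP
  ve := ve
  NE := 127
  gE := E
  ND := 117
  gD := DE1
  f := f
  f0 := f0
  f0k := f0k
  d0 := d0
  xi := 11
  xk := xk
  fcl := fcl
  ND2 := 318
  D2 := DE2
  N := 255
  tT := T
  wk := ws
  tM := M
  tR := R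
  tY := Y
  DC := D
  cD := CD
  wD := wD
  VT := VT
  V0 := V0
  jv := jv
  tA := T1
  mD := maskD
  pA := pA
  pB := pB
  pMO := pMO
  pS := pS
  pS2 := pS2
  pWO := pWO
  pG := pG
  sg0 := sg0
  p0 := p0
  q0 := q0
  p02 := p02
  q02 := q02
  pT := pT
  zl := zl
  zk := zk

theorem lenR0 : RL0.len = 94 := by decide +kernel

theorem lenR1 : RL1.len = 14 := by decide +kernel

theorem lenR2 : RL2.len = 6 := by decide +kernel

theorem lenR3 : RL3.len = 8 := by decide +kernel

theorem lenR4 : RL4.len = 5 := by decide +kernel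

theorem lenJ1 : J1.len = 117 := by decide +kernel

theorem lenJ2 : J2.len = 318 := by decide +kernel

theorem lenT2 : T2.len = 255 := by decide +kernel

theorem lenRW0 : RW0.len = 65 := by decide +kernel

theorem lenRW1 : RW1.len = 48 := by decide +kernel

theorem lenRW2 : RW2.len = 27 := by decide +kernel

theorem lenRW3 : RW3.len = 19 := by decide +kernel

theorem lenRW4 : RW4.len = 20 := by decide +kernel

theorem lenRW5 : RW5.len = 20 := by decide +kernel

theorem lenRW6 : RW6.len = 20 := by decide +kernel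

theorem lenRW7 : RW7.len = 18 := by decide +kernel

theorem lenRW8 : RW8.len = 16 := by decide +kernel

theorem lenRW9 : RW9.len = 2 := by decide +kernel

theorem hC : (Cst.mk (8 * chartB.nb) data.sh data.G data.LOW data.SQ).ok := by
  unfold Cst.ok; decide +kernel

theorem hC' : C.ok := by
  unfold Cst.ok; decide +kernel

theorem hCD : CD.ok := by
  unfold Cst.ok; decide +kernel

theorem hNX : ∀ (i : Fin 4) (c : Fin 8), chartB.nxt i c = NX.get (8 * i + c) := by decide +kernel

theorem hMO : ∀ n < 8 + chartB.nb, ∀ i : Fin 4, chartB.mono n i = mo pMO n i := by decide +kernel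

theorem hlen : io.len = C.n := by decide +kernel

theorem hxk : Nat.land xk data.G = 0 ∧
    Nat.land xk data.LOW = Nat.shiftLeft 1 (Nat.add 32 (Nat.mul 5 (io.get 11))) := by decide +kernel

theorem hmD : ∀ v < CD.n, dig maskD v = 0 ∨ dig maskD v = 31 := by decide +kernel

theorem hjv : jv.len = CD.n := by decide +kernel

theorem hjb : ∀ i < CD.n, jv.get i < 8 * chartB.nb := by decide +kernel

theorem htA : T1.len = C.n := by decide +kernel

theorem hR : ∀ i < data.NE, ∃ l i0, i0 ≤ i ∧ i < i0 + l.len ∧ chkR data.G data.sh data.wr data.cT data.cK.G data.VP data.gE l i0 = true := by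
  intro i hi
  have hi' : i < 127 := hi
  by_cases h0 : i < 94
  · exact ⟨RL0, 0, by omega, by rw [lenR0]; omega, r0⟩
  by_cases h1 : i < 108
  · exact ⟨RL1, 94, by omega, by rw [lenR1]; omega, r1⟩
  by_cases h2 : i < 114
  · exact ⟨RL2, 108, by omega, by rw [lenR2]; omega, r2⟩
  by_cases h3 : i < 122
  · exact ⟨RL3, 114, by omega, by rw [lenR3]; omega, r3⟩
  exact ⟨RL4, 122, by omega, by rw [lenR4]; omega, r4⟩

theorem hJ : ∀ i < data.ND, ∃ l i0, i0 ≤ i ∧ i < i0 + l.len ∧ chkJ data.cK.G data.gE data.gD l i0 = true := by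
  intro i hi
  have hi' : i < 117 := hi
  exact ⟨J1, 0, by omega, by rw [lenJ1]; omega, d2⟩

theorem hJ2 : ∀ i < data.ND2, ∃ l i0, i0 ≤ i ∧ i < i0 + l.len ∧ chkJ data.cK.G data.E2 data.D2 l i0 = true := by
  intro i hi
  have hi' : i < 318 := hi
  exact ⟨J2, 0, by omega, by rw [lenJ2]; omega, d4⟩

theorem hT2 : ∀ i < data.N, ∃ l i0, i0 ≤ i ∧ i < i0 + l.len ∧
    chkT data.cK.G data.D2 data.ND2 data.tT l i0 = true := by
  intro i hi
  have hi' : i < 255 := hi
  exact ⟨T2, 0, by omega, by rw [lenT2]; omega, d5⟩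

theorem hrows : ∀ i < data.N, ∃ l i0, i0 ≤ i ∧ i < i0 + l.len ∧ rows data.cK.G data.cK.LOW data.cK.sh data.tT l i0 = true := by
  intro i hi
  have hi' : i < 255 := hi
  by_cases h0 : i < 65
  · exact ⟨RW0, 0, by omega, by rw [lenRW0]; omega, rw0⟩
  by_cases h1 : i < 113
  · exact ⟨RW1, 65, by omega, by rw [lenRW1]; omega, rw1⟩
  by_cases h2 : i < 140
  · exact ⟨RW2, 113, by omega, by rw [lenRW2]; omega, rw2⟩
  by_cases h3 : i < 159
  · exact ⟨RW3, 140, by omega, by rw [lenRW3]; omega, rw3⟩
  by_cases h4 : i < 179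
  · exact ⟨RW4, 159, by omega, by rw [lenRW4]; omega, rw4⟩
  by_cases h5 : i < 199
  · exact ⟨RW5, 179, by omega, by rw [lenRW5]; omega, rw5⟩
  by_cases h6 : i < 219
  · exact ⟨RW6, 199, by omega, by rw [lenRW6]; omega, rw6⟩
  by_cases h7 : i < 237
  · exact ⟨RW7, 219, by omega, by rw [lenRW7]; omega, rw7⟩
  by_cases h8 : i < 253
  · exact ⟨RW8, 237, by omega, by rw [lenRW8]; omega, rw8⟩
  exact ⟨RW9, 253, by omega, by rw [lenRW9]; omega, rw9⟩

theorem nl806 : litsOK (.c 105 (.c 1640 .e)) = true := by decide +kernel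

theorem nn806 : nodeOK (rule data.cK.G data.cK.LOW data.cK.sh data.tM data.tT data.tR data.tY) data.DC 806 (.c 105 (.c 1640 .e)) (.rul 0 0 0) = true := by decide +kernel

theorem nl1613 : litsOK (.c 214 (.c 695 .e)) = true := by decide +kernel

theorem nn1613 : nodeOK (rule data.cK.G data.cK.LOW data.cK.sh data.tM data.tT data.tR data.tY) data.DC 1613 (.c 214 (.c 695 .e)) (.rul 2 0 0) = true := by decide +kernel

theorem nl2420 : litsOK (.c 71 (.c 215 .e)) = true := by decide +kernel

theorem nn2420 : nodeOK (rule data.cK.G data.cK.LOW data.cK.sh data.tM data.tT data.tR data.tY) data.DC 2420 (.c 71 (.c 215 .e)) (.rul 3 29 0) = true := by decide +kernel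

theorem nl2824 : litsOK (.c 99 (.c 127 (.c 781 (.c 1029 .e)))) = true := by decide +kernel

theorem nn2824 : nodeOK (rule data.cK.G data.cK.LOW data.cK.sh data.tM data.tT data.tR data.tY) data.DC 2824 (.c 99 (.c 127 (.c 781 (.c 1029 .e)))) (.rul 5 32 0) = true := by decide +kernel

theorem nl3227 : litsOK (.c 2033 (.c 2037 (.c 2041 (.c 2045 (.c 2049 (.c 2052 (.c 2057 .e))))))) = true := by decide +kernel

theorem nn3227 : nodeOK (rule data.cK.G data.cK.LOW data.cK.sh data.tM data.tT data.tR data.tY) data.DC 3227 (.c 2033 (.c 2037 (.c 2041 (.c 2045 (.c 2049 (.c 2052 (.c 2057 .e))))))) (.rul 5 194 1783156153379350471352271222602076046919841373751190826900997095130897087382782307032792704141002728457) = true := by decide +kernel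

theorem nl3429 : litsOK (.c 1817 (.c 1813 (.c 1809 (.c 283 (.c 271 (.c 199 .e)))))) = true := by decide +kernel

theorem nn3429 : nodeOK (rule data.cK.G data.cK.LOW data.cK.sh data.tM data.tT data.tR data.tY) data.DC 3429 (.c 1817 (.c 1813 (.c 1809 (.c 283 (.c 271 (.c 199 .e)))))) (.rup 52054574) = true := by decide +kernel

theorem nl3631 : litsOK (.c 79 (.c 154 (.c 270 (.c 126 (.c 2738 (.c 1362 (.c 3090 (.c 3106 (.c 3030 (.c 3082 (.c 2730 (.c 2834 (.c 906 (.c 1189 (.c 74 (.c 170 .e)))))))))))))))) = true := by decide +kernel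

theorem nn3631 : nodeOK (rule data.cK.G data.cK.LOW data.cK.sh data.tM data.tT data.tR data.tY) data.DC 3631 (.c 79 (.c 154 (.c 270 (.c 126 (.c 2738 (.c 1362 (.c 3090 (.c 3106 (.c 3030 (.c 3082 (.c 2730 (.c 2834 (.c 906 (.c 1189 (.c 74 (.c 170 .e)))))))))))))))) (.rup 262141362566107029699773821198322947381534618883083555819702019) = true := by decide +kernel

theorem nl3833 : litsOK (.c 1461 (.c 292 (.c 188 .e))) = true := by decide +kernel

theorem nn3833 : nodeOK (rule data.cK.G data.cK.LOW data.cK.sh data.tM data.tT data.tR data.tY) data.DC 3833 (.c 1461 (.c 292 (.c 188 .e))) (.rup 11046304) = true := by decide +kernel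

theorem nl4034 : litsOK (.c 102 (.c 3302 (.c 3310 (.c 3202 (.c 3290 (.c 3230 (.c 3274 (.c 3314 (.c 998 (.c 3042 (.c 162 (.c 2918 (.c 3294 (.c 1338 (.c 270 (.c 2682 (.c 3298 (.c 170 .e)))))))))))))))))) = true := by decide +kernel

theorem nn4034 : nodeOK (rule data.cK.G data.cK.LOW data.cK.sh data.tM data.tT data.tR data.tY) data.DC 4034 (.c 102 (.c 3302 (.c 3310 (.c 3202 (.c 3290 (.c 3230 (.c 3274 (.c 3314 (.c 998 (.c 3042 (.c 162 (.c 2918 (.c 3294 (.c 1338 (.c 270 (.c 2682 (.c 3298 (.c 170 .e)))))))))))))))))) (.rup 4313062300180552940296039377691110221244746907529961215665679927196) = true := by decide +kernel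

theorem nl4135 : litsOK (.c 259 (.c 1338 (.c 269 (.c 105 (.c 74 (.c 169 .e)))))) = true := by decide +kernel

theorem nn4135 : nodeOK (rule data.cK.G data.cK.LOW data.cK.sh data.tM data.tT data.tR data.tY) data.DC 4135 (.c 259 (.c 1338 (.c 269 (.c 105 (.c 74 (.c 169 .e)))))) (.rup 37887914846836439134932610430566213314962525918011107151848104263636859708540303601896886443142402336878749181397712918143542590816500340592060008222125330899831818641314821824828853075593510306089963315557462235020708904181528837226015051276142228861159170864892701247300168355877) = true := by decide +kernel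

theorem nl4236 : litsOK (.c 286 (.c 190 (.c 2862 (.c 98 (.c 2738 (.c 2830 (.c 2850 (.c 1658 (.c 2866 (.c 2802 (.c 1362 (.c 250 (.c 66 (.c 262 (.c 2842 (.c 1470 (.c 1394 (.c 2874 (.c 2846 (.c 2682 (.c 106 (.c 169 .e)))))))))))))))))))))) = true := by decide +kernel

theorem nn4236 : nodeOK (rule data.cK.G data.cK.LOW data.cK.sh data.tM data.tT data.tR data.tY) data.DC 4236 (.c 286 (.c 190 (.c 2862 (.c 98 (.c 2738 (.c 2830 (.c 2850 (.c 1658 (.c 2866 (.c 2802 (.c 1362 (.c 250 (.c 66 (.c 262 (.c 2842 (.c 1470 (.c 1394 (.c 2874 (.c 2846 (.c 2682 (.c 106 (.c 169 .e)))))))))))))))))))))) (.rup 16189855746654493255131159437595026521665750323816301054185) = true := by decide +kernel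

theorem nl4337 : litsOK (.c 250 (.c 998 (.c 3802 (.c 3686 (.c 3746 (.c 3810 (.c 102 (.c 3758 (.c 3750 (.c 3814 (.c 1338 (.c 294 (.c 710 (.c 238 (.c 82 (.c 242 (.c 3426 (.c 3818 (.c 3822 .e))))))))))))))))))) = true := by decide +kernel

theorem nn4337 : nodeOK (rule data.cK.G data.cK.LOW data.cK.sh data.tM data.tT data.tR data.tY) data.DC 4337 (.c 250 (.c 998 (.c 3802 (.c 3686 (.c 3746 (.c 3810 (.c 102 (.c 3758 (.c 3750 (.c 3814 (.c 1338 (.c 294 (.c 710 (.c 238 (.c 82 (.c 242 (.c 3426 (.c 3818 (.c 3822 .e))))))))))))))))))) (.rup 11606959631108296) = true := by decide +kernel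

theorem nl4438 : litsOK (.c 103 (.c 95 (.c 85 (.c 145 (.c 2670 (.c 1362 (.c 2838 (.c 293 (.c 294 (.c 270 (.c 66 (.c 283 (.c 2850 (.c 2738 (.c 2830 (.c 2802 (.c 262 (.c 2842 (.c 2758 (.c 1470 (.c 3594 (.c 3570 (.c 1394 (.c 2874 (.c 2846 (.c 3602 (.c 157 (.c 105 (.c 169 .e))))))))))))))))))))))))))))) = true := by decide +kernel

theorem nn4438 : nodeOK (rule data.cK.G data.cK.LOW data.cK.sh data.tM data.tT data.tR data.tY) data.DC 4438 (.c 103 (.c 95 (.c 85 (.c 145 (.c 2670 (.c 1362 (.c 2838 (.c 293 (.c 294 (.c 270 (.c 66 (.c 283 (.c 2850 (.c 2738 (.c 2830 (.c 2802 (.c 262 (.c 2842 (.c 2758 (.c 1470 (.c 3594 (.c 3570 (.c 1394 (.c 2874 (.c 2846 (.c 3602 (.c 157 (.c 105 (.c 169 .e))))))))))))))))))))))))))))) (.rup 99567616694611399092558642542289888747004610607771577316098881309769995) = true := by decide +kernel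

theorem nl4539 : litsOK (.c 292 (.c 220 (.c 64 (.c 104 (.c 260 .e))))) = true := by decide +kernel

theorem nn4539 : nodeOK (rule data.cK.G data.cK.LOW data.cK.sh data.tM data.tT data.tR data.tY) data.DC 4539 (.c 292 (.c 220 (.c 64 (.c 104 (.c 260 .e))))) (.rup 188365060328306380589) = true := by decide +kernel

theorem nl4640 : litsOK (.c 3403 (.c 271 (.c 2061 .e))) = true := by decide +kernel

theorem nn4640 : nodeOK (rule data.cK.G data.cK.LOW data.cK.sh data.tM data.tT data.tR data.tY) data.DC 4640 (.c 3403 (.c 271 (.c 2061 .e))) (.rup 866816182221) = true := by decide +kernel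

theorem nl4741 : litsOK (.c 154 (.c 218 (.c 3758 (.c 1138 (.c 2722 (.c 270 (.c 2609 (.c 189 (.c 149 (.c 150 (.c 221 (.c 294 (.c 127 (.c 250 (.c 104 (.c 92 (.c 909 (.c 86 (.c 82 (.c 78 (.c 74 (.c 69 (.c 66 .e))))))))))))))))))))))) = true := by decide +kernel

theorem nn4741 : nodeOK (rule data.cK.G data.cK.LOW data.cK.sh data.tM data.tT data.tR data.tY) data.DC 4741 (.c 154 (.c 218 (.c 3758 (.c 1138 (.c 2722 (.c 270 (.c 2609 (.c 189 (.c 149 (.c 150 (.c 221 (.c 294 (.c 127 (.c 250 (.c 104 (.c 92 (.c 909 (.c 86 (.c 82 (.c 78 (.c 74 (.c 69 (.c 66 .e))))))))))))))))))))))) (.rup 44616393777767694340395246030258003142997547161482379087477174479043948300906930614090872387585196405446245129040795536061527480917059792958853061143305884805551701049644278457885781316638700465249893526230124406198248828087446578283603358994474274201265878505864075908221465837951423138451457717743693148337650447720500711792575577526893341136397061830702515680049833334146939447321417737391506599808227267290711821825532911531160265033418031789951979007271329267073369534325702159288505268621936075108620614956664732)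 = true := by decide +kernel

theorem nl4841 : litsOK (.c 82 (.c 190 (.c 251 (.c 3450 (.c 1106 (.c 1138 (.c 1393 (.c 1541 (.c 1993 (.c 150 (.c 222 (.c 162 (.c 168 (.c 2966 (.c 3026 (.c 127 (.c 286 (.c 78 (.c 73 (.c 70 (.c 66 .e))))))))))))))))))))) = true := by decide +kernel

theorem nn4841 : nodeOK (rule data.cK.G data.cK.LOW data.cK.sh data.tM data.tT data.tR data.tY) data.DC 4841 (.c 82 (.c 190 (.c 251 (.c 3450 (.c 1106 (.c 1138 (.c 1393 (.c 1541 (.c 1993 (.c 150 (.c 222 (.c 162 (.c 168 (.c 2966 (.c 3026 (.c 127 (.c 286 (.c 78 (.c 73 (.c 70 (.c 66 .e))))))))))))))))))))) (.rup 26509322102422804980976264212605650683302912660799319359503301487749207428045572806818637482847569880088698011672024746382) = true := by decide +kernel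

theorem nl4942 : litsOK (.c 219 (.c 198 (.c 190 (.c 1138 (.c 1413 (.c 222 (.c 1417 (.c 1421 (.c 78 (.c 2938 (.c 102 (.c 150 (.c 601 (.c 1409 (.c 3374 (.c 3230 (.c 2974 (.c 82 (.c 127 (.c 270 (.c 3842 (.c 1405 (.c 73 (.c 70 (.c 66 .e))))))))))))))))))))))))) = true := by decide +kernel

theorem nn4942 : nodeOK (rule data.cK.G data.cK.LOW data.cK.sh data.tM data.tT data.tR data.tY) data.DC 4942 (.c 219 (.c 198 (.c 190 (.c 1138 (.c 1413 (.c 222 (.c 1417 (.c 1421 (.c 78 (.c 2938 (.c 102 (.c 150 (.c 601 (.c 1409 (.c 3374 (.c 3230 (.c 2974 (.c 82 (.c 127 (.c 270 (.c 3842 (.c 1405 (.c 73 (.c 70 (.c 66 .e))))))))))))))))))))))))) (.rup 460589721201330748152070923643454615141979572567102703538734762) = true := by decide +kernel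

theorem nl5043 : litsOK (.c 105 (.c 106 (.c 82 (.c 154 (.c 286 (.c 78 (.c 270 (.c 73 (.c 69 (.c 65 .e)))))))))) = true := by decide +kernel

theorem nn5043 : nodeOK (rule data.cK.G data.cK.LOW data.cK.sh data.tM data.tT data.tR data.tY) data.DC 5043 (.c 105 (.c 106 (.c 82 (.c 154 (.c 286 (.c 78 (.c 270 (.c 73 (.c 69 (.c 65 .e)))))))))) (.rup 3874241476987038106972355097047525627764272052529635429939697422972671356663736766482320687938555430558997485210141005141247792429971901289860547748088941275950127471304934908838972759811333978430206854740260832059214410833793596896107019961368680715180312357281964363782974611801402805116863145310698061545553171874461187491220342428115353172826822062720883963835655556335014665832794615781514354979385182573254374029506146596898056619423704036341204560311964281772356801671943933257079655919602600143915074808401863216246597580783680606092098277512595739) = true := by decide +kernel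

theorem nl5144 : litsOK (.c 873 (.c 94 (.c 154 (.c 221 (.c 82 (.c 270 (.c 78 (.c 69 (.c 65 .e))))))))) = true := by decide +kernel

theorem nn5144 : nodeOK (rule data.cK.G data.cK.LOW data.cK.sh data.tM data.tT data.tR data.tY) data.DC 5144 (.c 873 (.c 94 (.c 154 (.c 221 (.c 82 (.c 270 (.c 78 (.c 69 (.c 65 .e))))))))) (.rup 361205777586448840317845474329855698174414806528713874954511944790508958102432100705510842188653805560365899910693794890433093765511935927163266590167493460813872824023497518495842886562926592107829012708249740467605115584417683540289997713946587608857142708294) = true := by decide +kernel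

theorem nl5245 : litsOK (.c 238 (.c 250 (.c 94 (.c 2746 (.c 190 (.c 258 (.c 71 (.c 2854 (.c 2858 (.c 2842 (.c 1470 (.c 2846 (.c 2662 (.c 2658 (.c 150 (.c 214 (.c 2862 (.c 906 (.c 78 (.c 221 (.c 82 (.c 66 .e)))))))))))))))))))))) = true := by decide +kernel

theorem nn5245 : nodeOK (rule data.cK.G data.cK.LOW data.cK.sh data.tM data.tT data.tR data.tY) data.DC 5245 (.c 238 (.c 250 (.c 94 (.c 2746 (.c 190 (.c 258 (.c 71 (.c 2854 (.c 2858 (.c 2842 (.c 1470 (.c 2846 (.c 2662 (.c 2658 (.c 150 (.c 214 (.c 2862 (.c 906 (.c 78 (.c 221 (.c 82 (.c 66 .e)))))))))))))))))))))) (.rup 26873163839956725900339136457938367962025527233456277267197995050129588539175855272664617915768434894848374816745066203366) = true := by decide +kernel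

theorem nl5346 : litsOK (.c 197 (.c 102 (.c 94 (.c 150 (.c 189 (.c 74 (.c 70 (.c 78 (.c 82 (.c 65 .e)))))))))) = true := by decide +kernel

theorem nn5346 : nodeOK (rule data.cK.G data.cK.LOW data.cK.sh data.tM data.tT data.tR data.tY) data.DC 5346 (.c 197 (.c 102 (.c 94 (.c 150 (.c 189 (.c 74 (.c 70 (.c 78 (.c 82 (.c 65 .e)))))))))) (.rup 50239012263002391853658140421982337567814485281157336198699599496467903015509639413483766080291802467472879901584668429540353370429431922581491320952132629833689586545585437433396310391265053797982835963176820384058711442355434969437296077955875670368061518704595886622950308167485833879159546326238463129422875763223308253268733495523618411507878293800766024608617467190514605861240989700378140932673782070937334016364824217708566826788093734847615273863920475933910983039875068441934455918681460372537346434040860493406091694344152560833226557328309253128894) = true := by decide +kernel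

theorem nl5447 : litsOK (.c 168 (.c 104 (.c 196 (.c 268 (.c 72 (.c 220 (.c 1601 .e))))))) = true := by decide +kernel

theorem nn5447 : nodeOK (rule data.cK.G data.cK.LOW data.cK.sh data.tM data.tT data.tR data.tY) data.DC 5447 (.c 168 (.c 104 (.c 196 (.c 268 (.c 72 (.c 220 (.c 1601 .e))))))) (.rup 65860890119096268311256526249488493890999) = true := by decide +kernel

theorem nl5548 : litsOK (.c 269 (.c 1292 (.c 1112 (.c 74 (.c 104 (.c 220 (.c 65 .e))))))) = true := by decide +kernel

theorem nn5548 : nodeOK (rule data.cK.G data.cK.LOW data.cK.sh data.tM data.tT data.tR data.tY) data.DC 5548 (.c 269 (.c 1292 (.c 1112 (.c 74 (.c 104 (.c 220 (.c 65 .e))))))) (.rup 68824940203919253156063859766291906839341) = true := by decide +kernel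

theorem nl5648 : litsOK (.c 78 (.c 82 (.c 65 .e))) = true := by decide +kernel

theorem nn5648 : nodeOK (rule data.cK.G data.cK.LOW data.cK.sh data.tM data.tT data.tR data.tY) data.DC 5648 (.c 78 (.c 82 (.c 65 .e))) (.rup 14225851963813021752080782867639958210366161845217060601071742575774805846415497048043236876246060096645868491447503204094980772238343940166546450745808100833327716749177745033143971845236707438846409494265857607145976230906706639145005845340052723580365241927200107792128804517993582675991561366992498938492777165558741480677697288253872319015809127568236017981856842826926315529929976552460113813921979069459674852836649971393045145827568027433348236673305355973629062164739052915328538890326043294297373794758996083649632874625789067597164780807975565322230050397945754216990949989922992810559156729425453627732446920163889994028510439011666051595764810865749393088296501492211854579337535896629798676287806997536843301431653746064734967272639) = true := by decide +kernel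

theorem nl5749 : litsOK (.c 212 (.c 689 (.c 124 (.c 1289 (.c 105 .e))))) = true := by decide +kernel

theorem nn5749 : nodeOK (rule data.cK.G data.cK.LOW data.cK.sh data.tM data.tT data.tR data.tY) data.DC 5749 (.c 212 (.c 689 (.c 124 (.c 1289 (.c 105 .e))))) (.rup 906702975406370494412564030825053788475889233327278873097892594976) = true := by decide +kernel

theorem nl5850 : litsOK (.c 158 (.c 171 (.c 162 (.c 238 (.c 261 (.c 262 (.c 218 (.c 905 (.c 99 (.c 3154 (.c 3162 (.c 3126 (.c 3134 (.c 1246 (.c 1250 (.c 2918 (.c 3442 (.c 3158 (.c 166 (.c 66 (.c 3246 (.c 2678 (.c 2710 (.c 1502 (.c 2902 (.c 2670 (.c 150 (.c 214 (.c 3318 (.c 3650 (.c 3654 (.c 950 (.c 650 (.c 3646 (.c 3718 (.c 146 (.c 1861 (.c 82 (.c 270 (.c 189 (.c 74 .e))))))))))))))))))))))))))))))))))))))))) = true := by decide +kernel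

theorem nn5850 : nodeOK (rule data.cK.G data.cK.LOW data.cK.sh data.tM data.tT data.tR data.tY) data.DC 5850 (.c 158 (.c 171 (.c 162 (.c 238 (.c 261 (.c 262 (.c 218 (.c 905 (.c 99 (.c 3154 (.c 3162 (.c 3126 (.c 3134 (.c 1246 (.c 1250 (.c 2918 (.c 3442 (.c 3158 (.c 166 (.c 66 (.c 3246 (.c 2678 (.c 2710 (.c 1502 (.c 2902 (.c 2670 (.c 150 (.c 214 (.c 3318 (.c 3650 (.c 3654 (.c 950 (.c 650 (.c 3646 (.c 3718 (.c 146 (.c 1861 (.c 82 (.c 270 (.c 189 (.c 74 .e))))))))))))))))))))))))))))))))))))))))) (.rup 141354090983012199140594026026001222104390880342632102463660922387124847082808279486614549306146106488835430299996384511597256062448996227688771424801497924880411202573675779803639435995533192793416308261650282289191870247712476507984537322451477873596021898244061656559989839024248426541825640910060358555057387493444953348548675802) = true := by decide +kernel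

theorem nl5951 : litsOK (.c 167 (.c 70 (.c 1213 (.c 66 (.c 250 (.c 190 (.c 238 (.c 86 (.c 154 (.c 258 (.c 145 (.c 689 (.c 150 (.c 146 (.c 214 (.c 270 (.c 221 (.c 127 (.c 82 (.c 188 .e)))))))))))))))))))) = true := by decide +kernel

theorem nn5951 : nodeOK (rule data.cK.G data.cK.LOW data.cK.sh data.tM data.tT data.tR data.tY) data.DC 5951 (.c 167 (.c 70 (.c 1213 (.c 66 (.c 250 (.c 190 (.c 238 (.c 86 (.c 154 (.c 258 (.c 145 (.c 689 (.c 150 (.c 146 (.c 214 (.c 270 (.c 221 (.c 127 (.c 82 (.c 188 .e)))))))))))))))))))) (.rup 46978157) = true := by decide +kernel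

theorem nl6052 : litsOK (.c 2767 .e) = true := by decide +kernel

theorem nn6052 : nodeOK (rule data.cK.G data.cK.LOW data.cK.sh data.tM data.tT data.tR data.tY) data.DC 6052 (.c 2767 .e) (.rup 26302354) = true := by decide +kernel

theorem nl6254 : litsOK (.c 3375 .e) = true := by decide +kernel

theorem nn6254 : nodeOK (rule data.cK.G data.cK.LOW data.cK.sh data.tM data.tT data.tR data.tY) data.DC 6254 (.c 3375 .e) (.rup 32462946) = true := by decide +kernel

theorem hDC : chkC (rule data.cK.G data.cK.LOW data.cK.sh data.tM data.tT data.tR data.tY) D D = true :=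
  ((chkC_node _ _ _ _ _ _ _).2 ⟨((chkC_node _ _ _ _ _ _ _).2 ⟨((chkC_node _ _ _ _ _ _ _).2 ⟨chk0, chk1, nl806, nn806⟩), ((chkC_node _ _ _ _ _ _ _).2 ⟨chk2, ((chkC_node _ _ _ _ _ _ _).2 ⟨chk3, chk4, nl2824, nn2824⟩), nl2420, nn2420⟩), nl1613, nn1613⟩), ((chkC_node _ _ _ _ _ _ _).2 ⟨((chkC_node _ _ _ _ _ _ _).2 ⟨((chkC_node _ _ _ _ _ _ _).2 ⟨((chkC_node _ _ _ _ _ _ _).2 ⟨chk5, chk6, nl3429, nn3429⟩), ((chkC_node _ _ _ _ _ _ _).2 ⟨chk7, chk8, nl3833, nn3833⟩), nl3631, nn3631⟩), ((chkC_node _ _ _ _ _ _ _).2 ⟨((chkC_node _ _ _ _ _ _ _).2 ⟨((chkC_node _ _ _ _ _ _ _).2 ⟨chk9, chk10, nl4135, nn4135⟩), ((chkC_node _ _ _ _ _ _ _).2 ⟨chk11, chk12, nl4337, nn4337⟩), nl4236, nn4236⟩), ((chkC_node _ _ _ _ _ _ _).2 ⟨((chkC_node _ _ _ _ _ _ _).2 ⟨chk13, chk14, nl4539, nn4539⟩), ((chkC_node _ _ _ _ _ _ _).2 ⟨chk15, chk16, nl4741, nn4741⟩), nl4640, nn4640⟩), nl4438, nn4438⟩), nl4034, nn4034⟩), ((chkC_node _ _ _ _ _ _ _).2 ⟨((chkC_node _ _ _ _ _ _ _).2 ⟨((chkC_node _ _ _ _ _ _ _).2 ⟨((chkC_node _ _ _ _ _ _ _).2 ⟨chk17, chk18,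 nl4942, nn4942⟩), ((chkC_node _ _ _ _ _ _ _).2 ⟨chk19, chk20, nl5144, nn5144⟩), nl5043, nn5043⟩), ((chkC_node _ _ _ _ _ _ _).2 ⟨((chkC_node _ _ _ _ _ _ _).2 ⟨chk21, chk22, nl5346, nn5346⟩), ((chkC_node _ _ _ _ _ _ _).2 ⟨chk23, chk24, nl5548, nn5548⟩), nl5447, nn5447⟩), nl5245, nn5245⟩), ((chkC_node _ _ _ _ _ _ _).2 ⟨((chkC_node _ _ _ _ _ _ _).2 ⟨((chkC_node _ _ _ _ _ _ _).2 ⟨chk25, chk26, nl5749, nn5749⟩), ((chkC_node _ _ _ _ _ _ _).2 ⟨chk27, chk28, nl5951, nn5951⟩), nl5850, nn5850⟩), ((chkC_node _ _ _ _ _ _ _).2 ⟨chk29, chk30, nl6254, nn6254⟩), nl6052, nn6052⟩), nl5648, nn5648⟩), nl4841, nn4841⟩), nl3227, nn3227⟩)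

theorem hlast : ∃ i w, lookC D i = .some .e w :=
  exists_last D 6454 (by decide +kernel)

/-- The checks of the chart. -/
theorem ok : data.OK chartB where
  hC := hC
  hNX := hNX
  hV := c1
  hV' := c2
  hCT := c3
  hAll := c4
  hwr := h9
  hwT := c5
  hC' := hC'
  hVP := c6
  hVg := c7
  hio := c8
  hlen := hlen
  hdist := pt8
  hve := c9
  hE := c10
  hR := hR
  hD := d1
  hJ := hJ
  hf := h1
  hf0 := a2
  hf0k := a3
  hxi := by decide +kernel
  hxk := hxk
  hfc := x1
  hD2 := d3
  hJ2 := hJ2
  hT2 := hT2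
  hwk := t1
  hT := t2
  hN := t3
  hrows := hrows
  hM := t4
  hRel := t5
  hY := t6
  hDC := hDC
  hlast := hlast
  hCD := hCD
  hwD := h7
  hVT := h2
  hVTg := h4
  hV0 := h3
  hV0g := h5
  hz := h10
  htV := h6
  hmD := hmD
  hs := h8
  hjv := hjv
  hjb := hjb
  hJVp := a4
  hJVg := a5
  htA := htA
  hA := a1
  hMO := hMO
  hp1 := pt1
  hp2 := pt2
  hp3 := pt3
  hp4 := pt4
  hp5 := pt5
  hp6 := pt6
  hp7 := pt7

end Pool.Agent.Helper97.Hilb8.K.B
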